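import Pool.Agent.Helper59.GP.Info
import Pool.Agent.Helper59.GP.Piece

/-!
MP_8ee768_co, project TH-Y': random access to the glued types and their lanes.

`gG t` (285 bits) is the code `enc 12 4 D >>> 210` of the type `t < 10274`, `gN t` the number of its
lanes (parts inside `{0, .., 9}` of the links with 60 blocks, 210 bits), `lane t k` the lane `k`,
`rowL t` the list of the pieces (64 lanes of 210 bits each). The data are function trees
(Helper59/GP), about 30 microseconds per access in the kernel.
-/

set_option autoImplicit false

namespace Pool.Agent.Helper67.GT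

/-- number of types -/
def NT : ℕ := 10274

/-- the information on a type -/
noncomputable def gInfo (t : ℕ) : ℕ := Pool.Agent.Helper59.GP.fInfo t

/-- the code of a type (blocks meeting `{10, 11}`) -/
noncomputable def gG (t : ℕ) : ℕ := Nat.mod (gInfo t) (2 ^ 285)

/-- the number of lanes of a type -/
noncomputable def gN (t : ℕ) : ℕ := Nat.mod (Nat.shiftRight (gInfo t) 285) (2 ^ 16)

/-- the first piece of a type -/
noncomputable def gP (t : ℕ) : ℕ := Nat.shiftRight (gInfo t) 301

/-- a piece: 64 lanes of 210 bits -/
noncomputable def gPiece (i : ℕ) : ℕ := Pool.Agent.Helper59.GP.fPiece i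

/-- a lane -/
noncomputable def lane (t k : ℕ) : ℕ :=
  Nat.mod (Nat.shiftRight (gPiece (Nat.add (gP t) (Nat.div k 64))) (Nat.mul 210 (Nat.mod k 64)))
    (2 ^ 210)

/-- the lanes of a type -/
def lanes (t : ℕ) : Set ℕ := {R | ∃ k < gN t, R = lane t k}

/-- the pieces of a type -/
noncomputable def rowL (t : ℕ) : List ℕ :=
  (List.range ((gN t + 63) / 64)).map fun s => gPiece (gP t + s)

end Pool.Agent.Helper67.GT
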