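import Mathlib

/-!
MP_8ee768_co, project TH-Y': search trees of literals with random access in the kernel.
-/

set_option autoImplicit false

namespace Pool.Agent.Helper67.GT

/-- tree of literals; the key of an inner node is the smallest index of its right subtree -/
inductive Ts
  | l (n : ℕ)
  | b (h : ℕ) (x y : Ts)

/-- the value at the index `i` -/
noncomputable def Ts.get (t : Ts) (i : ℕ) : ℕ :=
  Ts.rec (motive := fun _ => ℕ → ℕ) (fun n _ => n)
    (fun h _ _ fx fy i => Bool.rec (fx i) (fy i) (Nat.ble h i)) t i

end Pool.Agent.Helper67.GT
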